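import Pool.Agent.Lib.MP_33b3f7_co.SpreadD

/-!
# MP_33b3f7_co: the optimal spreading parameter is nondecreasing in `r`
-/

namespace Pool.Agent.Results.MP_33b3f7_co.SpreadMonotone

open Finset Spread

/-- The quantity `μ_s(a)` of the problem (`a` is the spreading parameter `α`):
`μ a C(N,r)⁻¹ Σ_{j=a}^{min(r,ma)} C(ma,j) C(N-ma,r-j) / (H_j - H_{j-a})`. -/
noncomputable def muS (μ : ℝ) (N m r a : ℕ) : ℝ :=
  μ * (a : ℝ) * ((N.choose r : ℕ) : ℝ)⁻¹ *
    ∑ j ∈ Finset.Icc a (min r (m * a)),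
      (((m * a).choose j : ℕ) : ℝ) * (((N - m * a).choose (r - j) : ℕ) : ℝ) /
        ((harmonic j : ℝ) - (harmonic (j - a) : ℝ))

/-- The admissible range `1 ≤ a ≤ min(r, ⌊N/m⌋)`. -/
def Admissible (N m r a : ℕ) : Prop := 1 ≤ a ∧ a ≤ min r (N / m)

/-- `a` is a maximiser of `μ_s` over the admissible range. -/
def IsOptimal (μ : ℝ) (N m r a : ℕ) : Prop :=
  Admissible N m r a ∧ ∀ b, Admissible N m r b → muS μ N m r b ≤ muS μ N m r a

/-- The largest maximiser (see the first clause of `result`). -/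
noncomputable def alphaStar (μ : ℝ) (N m r : ℕ) : ℕ := sSup {a | IsOptimal μ N m r a}

lemma H_eq (n : ℕ) : (harmonic n : ℝ) = H n := by
  unfold H harmonic
  push_cast
  refine Finset.sum_congr rfl fun k _ => ?_
  rw [one_div]

lemma muS_eq (μ : ℝ) (N m r a : ℕ) :
    muS μ N m r a = μ * ((N.choose r : ℕ) : ℝ)⁻¹ * T N (m * a) (rate a) r := by
  have h : T N (m * a) (rate a) r = (a : ℝ) * ∑ j ∈ Finset.Icc a (min r (m * a)),
      (((m * a).choose j : ℕ) : ℝ) * (((N - m * a).choose (r - j) : ℕ) : ℝ) /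
        ((harmonic j : ℝ) - (harmonic (j - a) : ℝ)) := by
    unfold T
    rw [Finset.mul_sum]
    symm
    apply Finset.sum_subset_zero_on_sdiff
    · intro j hj
      rw [Finset.mem_Icc] at hj
      rw [Finset.mem_range]; omega
    · intro j hj
      rw [Finset.mem_sdiff, Finset.mem_range, Finset.mem_Icc] at hj
      by_cases h1 : j < a
      · rw [rate_zero h1, mul_zero]
      · have : (m * a).choose j = 0 := Nat.choose_eq_zero_of_lt (by omega)
        rw [this]; simp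
    · intro j hj
      rw [Finset.mem_Icc] at hj
      unfold rate
      rw [if_pos hj.1, H_eq, H_eq]
      ring
  rw [h]
  unfold muS
  ring

lemma muS_le_iff {μ : ℝ} (hμ : 0 < μ) {N m r a b : ℕ} (hr : r ≤ N) :
    muS μ N m r a ≤ muS μ N m r b ↔ T N (m * a) (rate a) r ≤ T N (m * b) (rate b) r := by
  have h1 : (0 : ℝ) < ((N.choose r : ℕ) : ℝ) := by exact_mod_cast Nat.choose_pos hr
  rw [muS_eq, muS_eq]
  exact mul_le_mul_iff_of_pos_left (by positivity)

lemma muS_lt_iff {μ : ℝ} (hμ : 0 < μ) {N m r a b : ℕ} (hr : r ≤ N) :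
    muS μ N m r a < muS μ N m r b ↔ T N (m * a) (rate a) r < T N (m * b) (rate b) r := by
  have h1 : (0 : ℝ) < ((N.choose r : ℕ) : ℝ) := by exact_mod_cast Nat.choose_pos hr
  rw [muS_eq, muS_eq]
  exact mul_lt_mul_iff_of_pos_left (by positivity)

lemma single_crossing {μ : ℝ} (hμ : 0 < μ) {N m : ℕ} (hm : 1 ≤ m) {r r' a b : ℕ} (hrr : r < r') (hr' : r' ≤ N)
    (ha : 1 ≤ a) (hab : a < b) (hb : Admissible N m r b) (h : muS μ N m r a ≤ muS μ N m r b) :
    muS μ N m r' a < muS μ N m r' b := by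
  obtain ⟨-, hb2⟩ := hb
  have hbr : b ≤ r := hb2.trans (min_le_left _ _)
  have hbN : b ≤ N / m := hb2.trans (min_le_right _ _)
  have hmb : m * b ≤ N := by
    have := (Nat.le_div_iff_mul_le (by omega)).mp hbN
    rw [mul_comm]; exact this
  rw [muS_le_iff hμ (by omega)] at h
  rw [muS_lt_iff hμ hr']
  exact propagate base hm ha hab hmb (by omega) hrr hr' h

lemma optimal_mono {μ : ℝ} (hμ : 0 < μ) {N m : ℕ} (hm : 1 ≤ m) {r r' a a' : ℕ} (hrr : r < r') (hr' : r' ≤ N)
    (h : IsOptimal μ N m r a) (h' : IsOptimal μ N m r' a') : a ≤ a' := by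
  by_contra hcon
  push Not at hcon
  obtain ⟨hadm, hopt⟩ := h
  obtain ⟨hadm', hopt'⟩ := h'
  have h1 : Admissible N m r a' := ⟨hadm'.1, hcon.le.trans hadm.2⟩
  have h2 := single_crossing hμ hm hrr hr' hadm'.1 hcon hadm (hopt a' h1)
  have h3 : Admissible N m r' a := ⟨hadm.1, hadm.2.trans (min_le_min_right _ hrr.le)⟩
  have h4 := hopt' a h3
  linarith

lemma exists_optimal (μ : ℝ) {N m r : ℕ} (hm : 1 ≤ m) (hmN : m ≤ N) (hr : 1 ≤ r) :
    ∃ a, IsOptimal μ N m r a := by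
  have hne : (Finset.Icc 1 (min r (N / m))).Nonempty := by
    rw [Finset.nonempty_Icc]
    exact le_min hr (Nat.div_pos hmN (by omega))
  obtain ⟨a, ha, hmax⟩ := Finset.exists_max_image _ (muS μ N m r) hne
  rw [Finset.mem_Icc] at ha
  exact ⟨a, ha, fun b hb => hmax b (Finset.mem_Icc.mpr hb)⟩

lemma alphaStar_isGreatest (μ : ℝ) {N m r : ℕ} (hm : 1 ≤ m) (hmN : m ≤ N) (hr : 1 ≤ r) :
    IsGreatest {a | IsOptimal μ N m r a} (alphaStar μ N m r) := by
  have hbdd : BddAbove {a | IsOptimal μ N m r a} := ⟨r, fun a ha => ha.1.2.trans (min_le_left _ _)⟩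
  have hne : {a | IsOptimal μ N m r a}.Nonempty := exists_optimal μ hm hmN hr
  exact ⟨Nat.sSup_mem hne hbdd, fun a ha => le_csSup hbdd ha⟩

/-- **MP_33b3f7_co, Q1 (answer: yes).**  For all `N`, all `1 ≤ m ≤ N` and all `μ > 0`:
* for `1 ≤ r ≤ N`, `alphaStar μ N m r` is the largest maximiser of `μ_s` over the admissible range;
* it is a nondecreasing function of `r`;
* more strongly, for `r < r'` every maximiser for `r` is at most every maximiser for `r'`
  (so monotonicity holds for every tie-breaking rule). -/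
theorem result (N m : ℕ) (hm : 1 ≤ m) (hmN : m ≤ N) (μ : ℝ) (hμ : 0 < μ) :
    (∀ r, 1 ≤ r → r ≤ N → IsGreatest {a | IsOptimal μ N m r a} (alphaStar μ N m r)) ∧
    (∀ r r', 1 ≤ r → r ≤ r' → r' ≤ N → alphaStar μ N m r ≤ alphaStar μ N m r') ∧
    (∀ r r' a a', 1 ≤ r → r < r' → r' ≤ N →
      IsOptimal μ N m r a → IsOptimal μ N m r' a' → a ≤ a') := by
  refine ⟨fun r h1 _ => alphaStar_isGreatest μ hm hmN h1, ?_, ?_⟩
  · intro r r' h1 h2 h3
    rcases eq_or_lt_of_le h2 with h | h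
    · rw [h]
    · exact optimal_mono hμ hm h h3 (alphaStar_isGreatest μ hm hmN h1).1
        (alphaStar_isGreatest μ hm hmN (h1.trans h2)).1
  · intro r r' a a' _ h2 h3 h4 h5
    exact optimal_mono hμ hm h2 h3 h4 h5

end Pool.Agent.Results.MP_33b3f7_co.SpreadMonotone
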